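import Pool.Agent.H14.UDA.AF2
import Pool.Agent.H65.VG.ARE
import Pool.Agent.H65.VG.ZER

/-!
Module AF: the area formula for `Φ` on the inverse image of a piece.
-/

set_option autoImplicit false

open Polynomial MeasureTheory Filter Topology Set
open scoped ENNReal

namespace Pool.Agent.H14.UDA

open Pool.Agent.H83.UE Pool.Agent.H95.VG

/-- a zero row -/
theorem rmin_zero {k m : ℕ} (B : Set (Fin m → ℂ)) (hB : IsOpen B)
    (ψ : (Fin m → ℂ) → (Fin k → ℂ)) (hψ : DifferentiableOn ℂ ψ B) (t : Fin m → ℂ) (ht : t ∈ B)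
    (I : Idx k m) (i : Fin k) (hi : i ∈ I.1) (h : ∃ v, ∀ t ∈ B, ψ t i = v) :
    rmin ψ I t = 0 := by
  obtain ⟨v, hv⟩ := h
  have hψt : DifferentiableAt ℂ ψ t := (hψ t ht).differentiableAt (hB.mem_nhds ht)
  have h2 : fderiv ℂ (fun t => ψ t i) t = 0 := by
    have h3 : (fun t => ψ t i) =ᶠ[𝓝 t] fun _ => v := by
      filter_upwards [hB.mem_nhds ht] with s hs
      exact hv s hs
    rw [h3.fderiv_eq]
    exact (hasFDerivAt_const v t).fderiv
  have hi' : i ∈ Set.range (I.1.orderEmbOfFin I.2) := by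
    rw [Finset.range_orderEmbOfFin]
    exact hi
  obtain ⟨a, ha⟩ := hi'
  refine Matrix.det_eq_zero_of_row_eq_zero a fun j => ?_
  show fderiv ℂ ψ t (Pi.single j 1) (I.1.orderEmbOfFin I.2 a) = 0
  rw [ha]
  have h4 := (hasFDerivAt_pi'.1 hψt.hasFDerivAt) i
  have h5 := h4.fderiv
  rw [h2] at h5
  have h6 := DFunLike.congr_fun h5 (Pi.single j 1)
  exact h6.symm

theorem pf_AF (h1 : T_IT) (h2 : T_BR) (h3 : T_CB) : T_AF := by
  classical
  intro k m d hd g n c r S ψ Φ hS hSB hψ hinj hΦ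
  obtain ⟨E, hE⟩ := h2 d hd g n
  have hE' : BrE g n E := hE
  set B : Set (Fin m → ℂ) := Metric.ball c r with hBdef
  have hB : IsOpen B := Metric.isOpen_ball
  have hψl : ∀ l, DifferentiableOn ℂ (fun t => ψ t l) B := differentiableOn_pi.1 hψ
  -- the good set
  set O : Set (Fin m → ℂ) := {t ∈ B | ∀ l, (∃ v, ∀ t ∈ B, ψ t l = v) ∨ ψ t l ∉ E} with hO
  have hOo : IsOpen O := by
    have h4 : O = B ∩ ⋂ l, (if ∃ v, ∀ t ∈ B, ψ t l = v then B
        else B ∩ (fun t => ψ t l) ⁻¹' (E : Set ℂ)ᶜ) := by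
      ext t
      constructor
      · rintro ⟨ht, h5⟩
        refine ⟨ht, mem_iInter.2 fun l => ?_⟩
        by_cases hl : ∃ v, ∀ t ∈ B, ψ t l = v
        · rw [if_pos hl]
          exact ht
        · rw [if_neg hl]
          exact ⟨ht, (h5 l).resolve_left hl⟩
      · rintro ⟨ht, h5⟩
        refine ⟨ht, fun l => ?_⟩
        by_cases hl : ∃ v, ∀ t ∈ B, ψ t l = v
        · exact Or.inl hl
        · have h6 := mem_iInter.1 h5 l
          rw [if_neg hl] at h6
          exact Or.inr h6.2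
    rw [h4]
    refine hB.inter (isOpen_iInter_of_finite fun l => ?_)
    by_cases hl : ∃ v, ∀ t ∈ B, ψ t l = v
    · rw [if_pos hl]
      exact hB
    · rw [if_neg hl]
      exact (hψl l).continuousOn.isOpen_inter_preimage hB
        E.finite_toSet.isClosed.isOpen_compl
  set Z : Set (Fin m → ℂ) := S \ O with hZ
  have hSZ : S \ Z = S ∩ O := by
    rw [hZ, sdiff_sdiff_right_self]
  have hZ0 : volume Z = 0 := by
    have h4 : Z ⊆ ⋃ l : Fin k, ⋃ v ∈ E, {t ∈ B | (¬ ∃ v, ∀ t ∈ B, ψ t l = v) ∧ ψ t l = v} := by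
      rintro t ⟨htS, htO⟩
      have h5 : ¬ ∀ l, (∃ v, ∀ t ∈ B, ψ t l = v) ∨ ψ t l ∉ E := fun h5 => htO ⟨hSB htS, h5⟩
      push Not at h5
      obtain ⟨l, h6, h7⟩ := h5
      refine mem_iUnion.2 ⟨l, mem_iUnion₂.2 ⟨ψ t l, h7, hSB htS, ?_, rfl⟩⟩
      rintro ⟨v, hv⟩
      obtain ⟨s, hs, hsv⟩ := h6 v
      exact hsv (hv s hs)
    refine measure_mono_null h4 (measure_iUnion_null fun l => ?_)
    refine (measure_biUnion_null_iff E.countable_toSet).2 fun v _ => ?_
    by_cases hl : ∃ v, ∀ t ∈ B, ψ t l = v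
    · have h5 : {t ∈ B | (¬ ∃ v, ∀ t ∈ B, ψ t l = v) ∧ ψ t l = v} = ∅ := by
        ext t
        constructor
        · rintro ⟨-, h6, -⟩
          exact h6 hl
        · exact fun h6 => h6.elim
      rw [h5]
      exact measure_empty
    · have h5 : ∃ s ∈ B, ψ s l - v ≠ 0 := by
        by_contra h6
        push Not at h6
        exact hl ⟨v, fun t ht => sub_eq_zero.1 (h6 t ht)⟩
      have h6 := Pool.Agent.H65.VG.zer m c r (fun t => ψ t l - v)
        ((hψl l).sub_const v) h5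
      refine measure_mono_null ?_ h6
      rintro t ⟨ht, -, h7⟩
      exact ⟨ht, sub_eq_zero.2 h7⟩
  have hZm : MeasurableSet Z := hS.diff hOo.measurableSet
  have hS'm : MeasurableSet (S \ Z) := hS.diff hZm
  have hS'O : ∀ t ∈ S \ Z, t ∈ O := by
    intro t ht
    rw [hSZ] at ht
    exact ht.2
  refine ⟨Z, hZm, sdiff_subset, hZ0, ?_, ?_⟩
  · intro t ht I x hx i hi hder
    rcases (hS'O t ht).2 i with h4 | h4
    · exact rmin_zero B hB ψ hψ t (hS'O t ht).1 I i hi h4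
    · exfalso
      obtain ⟨ρ, hρ, ξ, -, hξ⟩ := hE (ψ t i) h4
      obtain ⟨-, -, hroots, hd'⟩ := hξ (ψ t i) (Metric.mem_ball_self hρ)
      have hxi : x i ∈ (g.fib n (ψ t i)).roots := by
        unfold fibre at hx
        exact Multiset.mem_toFinset.1 (Fintype.mem_piFinset.1 hx i)
      rw [hroots, Multiset.mem_map] at hxi
      obtain ⟨j, -, hj⟩ := hxi
      exact (hd' j).2.1 (by rw [hj]; exact hder)
  -- the branches
  obtain ⟨J, W, T, x, hJ, hWo, hTm, hTW, hTS, hxd, hdet, hfib, huni⟩ :=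
    branches h3 g n E hE' B hB ψ hψ Φ hΦ (S \ Z) hS'm (sdiff_subset.trans hSB)
      (fun t ht => (hS'O t ht).2)
  intro F hF
  have hYd : ∀ j, DifferentiableOn ℂ (fun t => Φ (x j t)) (W j) := fun j =>
    hΦ.comp_differentiableOn (hxd j)
  obtain ⟨G, hG⟩ : ∃ G : J → (Fin m → ℂ) → ℝ≥0∞,
      G = fun j t => F ((W j).piecewise (x j) (fun _ => 0) t) := ⟨_, rfl⟩
  have hGm : ∀ j, Measurable (G j) := by
    intro j
    rw [hG]
    exact hF.comp ((hxd j).continuousOn.measurable_piecewise continuousOn_const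
      (hWo j).measurableSet)
  have hGx : ∀ j, ∀ t ∈ W j, G j t = F (x j t) := by
    intro j t ht
    rw [hG]
    show F ((W j).piecewise (x j) (fun _ => 0) t) = _
    rw [piecewise_eq_of_mem _ _ _ ht]
  have hare := fun j => Pool.Agent.H65.VG.are m (W j) (T j) (fun t => Φ (x j t)) (G j) (hWo j)
    (hYd j) (hTm j) (hTW j) (hGm j)
  -- the identity of the sums
  have key : ∀ y : Fin m → ℂ,
      (∑' j, ∑' z : {z // z ∈ T j ∧ Φ (x j z) = y ∧ (jac (fun t => Φ (x j t)) z).det ≠ 0},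
        G j z.1) =
      ∑' x : {x // RegT g n x ∧ valT g n x ∈ ψ '' (S \ Z) ∧ Φ x = y ∧
        ∃ t ∈ S \ Z, ψ t = valT g n x ∧ bdet g n Φ ψ t x ≠ 0}, F x.1 := by
    intro y
    rw [← ENNReal.tsum_sigma (fun j (z : {z // z ∈ T j ∧ Φ (x j z) = y ∧
      (jac (fun t => Φ (x j t)) z).det ≠ 0}) => G j z.1)]
    have hmap : ∀ p : (Σ j, {z // z ∈ T j ∧ Φ (x j z) = y ∧
        (jac (fun t => Φ (x j t)) z).det ≠ 0}),
        RegT g n (x p.1 p.2.1) ∧ valT g n (x p.1 p.2.1) ∈ ψ '' (S \ Z) ∧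
        Φ (x p.1 p.2.1) = y ∧ ∃ t ∈ S \ Z, ψ t = valT g n (x p.1 p.2.1) ∧
          bdet g n Φ ψ t (x p.1 p.2.1) ≠ 0 := by
      rintro ⟨j, z, hz, hzy, hzd⟩
      have h4 := (hfib z (hTS j hz) (x j z)).2 ⟨j, hz, rfl⟩
      rw [mem_fibre_iff h1 hd] at h4
      refine ⟨h4.1, ⟨z, hTS j hz, h4.2.symm⟩, hzy, z, hTS j hz, h4.2.symm, ?_⟩
      rw [← hdet j z (hTW j hz)]
      exact hzd
    obtain ⟨e, he⟩ : ∃ e : (Σ j, {z // z ∈ T j ∧ Φ (x j z) = y ∧
        (jac (fun t => Φ (x j t)) z).det ≠ 0}) →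
        {x // RegT g n x ∧ valT g n x ∈ ψ '' (S \ Z) ∧ Φ x = y ∧
        ∃ t ∈ S \ Z, ψ t = valT g n x ∧ bdet g n Φ ψ t x ≠ 0},
        ∀ p, (e p).1 = x p.1 p.2.1 := ⟨fun p => ⟨x p.1 p.2.1, hmap p⟩, fun p => rfl⟩
    have hbij : Function.Bijective e := by
      constructor
      · rintro ⟨i, z, hz, hzy, hzd⟩ ⟨j, w, hw, hwy, hwd⟩ hpq
        have h4 : x i z = x j w := by
          have h5 := congrArg Subtype.val hpq
          rw [he, he] at h5
          exact h5
        have h5 := (hfib z (hTS i hz) (x i z)).2 ⟨i, hz, rfl⟩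
        have h6 := (hfib w (hTS j hw) (x j w)).2 ⟨j, hw, rfl⟩
        rw [mem_fibre_iff h1 hd] at h5 h6
        have h7 : ψ z = ψ w := by
          rw [← h5.2, ← h6.2, h4]
        have h8 : z = w := hinj (hTS i hz).1 (hTS j hw).1 h7
        subst h8
        have h9 : i = j := huni i j z hz hw h4
        subst h9
        rfl
      · rintro ⟨y', hreg, hval, hΦy, t, htS, htv, hbd⟩
        have h4 : y' ∈ fibre g n (ψ t) := by
          rw [mem_fibre_iff h1 hd]
          exact ⟨hreg, htv.symm⟩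
        obtain ⟨j, htj, hjy⟩ := (hfib t htS y').1 h4
        subst hjy
        refine ⟨⟨j, t, htj, hΦy, ?_⟩, Subtype.ext (he _)⟩
        rw [hdet j t (hTW j htj)]
        exact hbd
    rw [← (Equiv.ofBijective e hbij).tsum_eq]
    apply tsum_congr
    rintro ⟨j, z, hz, hzy, hzd⟩
    rw [hGx j z (hTW j hz)]
    show F (x j z) = F (e ⟨j, z, hz, hzy, hzd⟩).1
    rw [he]
  refine ⟨?_, ?_, ?_⟩
  · have h4 : (fun y => ∑' x : {x // RegT g n x ∧ valT g n x ∈ ψ '' (S \ Z) ∧ Φ x = y ∧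
        ∃ t ∈ S \ Z, ψ t = valT g n x ∧ bdet g n Φ ψ t x ≠ 0}, F x.1) =
        fun y => ∑' j, ∑' z : {z // z ∈ T j ∧ Φ (x j z) = y ∧
          (jac (fun t => Φ (x j t)) z).det ≠ 0}, G j z.1 := by
      funext y
      exact (key y).symm
    rw [h4]
    exact Measurable.tsum fun j => (hare j).1
  · obtain ⟨Hj, hHj⟩ : ∃ Hj : J → (Fin m → ℂ) → ℝ≥0∞, Hj = fun j =>
        (W j).piecewise (fun t => ENNReal.ofReal (‖(jac (fun t => Φ (x j t)) t).det‖ ^ 2))
          (fun _ => 0) := ⟨_, rfl⟩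
    have hHm : ∀ j, Measurable (Hj j) := by
      intro j
      rw [hHj]
      refine ContinuousOn.measurable_piecewise ?_ continuousOn_const (hWo j).measurableSet
      have h4 := Pool.Agent.H65.VG.continuousOn_det (hWo j) (hYd j)
      exact ENNReal.continuous_ofReal.comp_continuousOn ((h4.norm).pow 2)
    have hHx : ∀ j, ∀ t ∈ W j,
        Hj j t = ENNReal.ofReal (‖(jac (fun t => Φ (x j t)) t).det‖ ^ 2) := by
      intro j t ht
      rw [hHj]
      exact piecewise_eq_of_mem _ _ _ ht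
    have h5 : ∫⁻ t in S, ∑ x ∈ fibre g n (ψ t), F x * ENNReal.ofReal (‖bdet g n Φ ψ t x‖ ^ 2) =
        ∫⁻ t in S \ Z, ∑ x ∈ fibre g n (ψ t),
          F x * ENNReal.ofReal (‖bdet g n Φ ψ t x‖ ^ 2) :=
      setLIntegral_congr (sdiff_null_ae_eq_self hZ0).symm
    have h6 : ∀ t ∈ S \ Z, ∑ x ∈ fibre g n (ψ t),
        F x * ENNReal.ofReal (‖bdet g n Φ ψ t x‖ ^ 2) =
        ∑' j, (T j).indicator (fun t => G j t * Hj j t) t := by
      intro t ht
      rw [sum_branches (fibre g n (ψ t)) (fun j => t ∈ T j) (fun j => x j t) (hfib t ht)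
        (fun i j hi hj hij => huni i j t hi hj hij)
        (fun x => F x * ENNReal.ofReal (‖bdet g n Φ ψ t x‖ ^ 2))]
      apply tsum_congr
      intro j
      by_cases hj : t ∈ T j
      · rw [if_pos hj, indicator_of_mem hj, hGx j t (hTW j hj), hHx j t (hTW j hj),
          hdet j t (hTW j hj)]
      · rw [if_neg hj, indicator_of_notMem hj]
    have h8 : ∀ j, AEMeasurable (fun t => (T j).indicator (fun t => G j t * Hj j t) t)
        (volume.restrict (S \ Z)) := fun j =>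
      (((hGm j).mul (hHm j)).indicator (hTm j)).aemeasurable
    rw [h5, setLIntegral_congr_fun hS'm h6, lintegral_tsum h8]
    have h7 : ∀ j, ∫⁻ t in S \ Z, (T j).indicator (fun t => G j t * Hj j t) t =
        ∫⁻ y, ∑' z : {z // z ∈ T j ∧ Φ (x j z) = y ∧
          (jac (fun t => Φ (x j t)) z).det ≠ 0}, G j z.1 := by
      intro j
      rw [lintegral_indicator (hTm j), Measure.restrict_restrict (hTm j),
        inter_eq_left.2 (hTS j), ← (hare j).2.1]
      refine setLIntegral_congr_fun (hTm j) fun t ht => ?_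
      rw [hHx j t (hTW j ht)]
    simp only [h7]
    rw [← lintegral_tsum fun j => (hare j).1.aemeasurable]
    exact lintegral_congr key
  · have h4 : Φ '' {x | RegT g n x ∧ ∃ t ∈ S \ Z, ψ t = valT g n x ∧
        bdet g n Φ ψ t x = 0} ⊆
        ⋃ j, (fun t => Φ (x j t)) '' {z ∈ T j | (jac (fun t => Φ (x j t)) z).det = 0} := by
      rintro _ ⟨y', ⟨hreg, t, htS, htv, hbd⟩, rfl⟩
      have h5 : y' ∈ fibre g n (ψ t) := by
        rw [mem_fibre_iff h1 hd]
        exact ⟨hreg, htv.symm⟩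
      obtain ⟨j, htj, hjy⟩ := (hfib t htS y').1 h5
      subst hjy
      refine mem_iUnion.2 ⟨j, t, ⟨htj, ?_⟩, rfl⟩
      rw [hdet j t (hTW j htj)]
      exact hbd
    exact measure_mono_null h4 (measure_iUnion_null fun j => (hare j).2.2)

end Pool.Agent.H14.UDA
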