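import Pool.Agent.H83.UE.Targets2
import Pool.Agent.H95.VG.Targets1

/-!
Module AF, part 1: local branches of `x ∈ G^(-n)(ψ(t))` and the Jacobian determinant.
-/

set_option autoImplicit false

open Polynomial MeasureTheory Filter Topology Set

namespace Pool.Agent.H14.UDA

open Pool.Agent.H83.UE Pool.Agent.H95.VG

theorem fib_ne_zero (h1 : T_IT) {d : ℕ} (hd : 1 ≤ d) (g : RatMap d) (n : ℕ) (z : ℂ) :
    g.fib n z ≠ 0 := by
  intro h0
  obtain ⟨-, -, h3, h4, -⟩ := h1 d hd g n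
  have hpos : 0 < d ^ n := by positivity
  have hP : (g.it n).1 = C z * (g.it n).2 := sub_eq_zero.1 h0
  have hu : IsUnit (g.it n).2 := by
    rw [hP] at h4
    exact h4.isUnit_of_dvd' (Dvd.intro_left _ rfl) dvd_rfl
  have hQ0 : (g.it n).2.natDegree = 0 := natDegree_eq_zero_of_isUnit hu
  have hP0 : (g.it n).1.natDegree = 0 := by
    rw [hP]
    have := natDegree_C_mul_le z (g.it n).2
    omega
  omega

theorem mem_fib_iff (h1 : T_IT) {d : ℕ} (hd : 1 ≤ d) (g : RatMap d) (n : ℕ) (z x : ℂ) :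
    x ∈ (g.fib n z).roots ↔ (g.it n).2.eval x ≠ 0 ∧ g.val n x = z := by
  obtain ⟨-, -, -, h4, -⟩ := h1 d hd g n
  rw [mem_roots (fib_ne_zero h1 hd g n z), IsRoot.def]
  unfold RatMap.fib RatMap.val
  rw [eval_sub, eval_mul, eval_C, sub_eq_zero]
  constructor
  · intro h
    have hQ : (g.it n).2.eval x ≠ 0 := by
      intro hQ
      rw [hQ, mul_zero] at h
      obtain ⟨a, b, hab⟩ := h4
      have h5 := congrArg (eval x) hab
      rw [eval_add, eval_mul, eval_mul, h, hQ, mul_zero, mul_zero, add_zero, eval_one] at h5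
      exact zero_ne_one h5
    refine ⟨hQ, ?_⟩
    rw [h, mul_div_assoc, div_self hQ, mul_one]
  · rintro ⟨hQ, h⟩
    rw [← h, div_mul_cancel₀ _ hQ]

theorem mem_fibre_iff (h1 : T_IT) {k d : ℕ} (hd : 1 ≤ d) (g : RatMap d) (n : ℕ)
    (z x : Fin k → ℂ) : x ∈ fibre g n z ↔ RegT g n x ∧ valT g n x = z := by
  unfold fibre RegT valT
  rw [Fintype.mem_piFinset]
  simp only [Multiset.mem_toFinset, mem_fib_iff h1 hd]
  constructor
  · intro h
    exact ⟨fun l => (h l).1, funext fun l => (h l).2⟩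
  · rintro ⟨h, h'⟩ l
    exact ⟨h l, congrFun h' l⟩

/-- the property of the exceptional set of `T_BR` -/
def BrE {d : ℕ} (g : RatMap d) (n : ℕ) (E : Finset ℂ) : Prop :=
  ∀ z₀, z₀ ∉ E → ∃ ρ : ℝ, 0 < ρ ∧ ∃ ξ : Fin (d ^ n) → ℂ → ℂ,
    (∀ i, DifferentiableOn ℂ (ξ i) (Metric.ball z₀ ρ)) ∧
    ∀ z ∈ Metric.ball z₀ ρ, z ∉ E ∧ (Function.Injective fun i => ξ i z) ∧
      (g.fib n z).roots = Finset.univ.val.map (fun i => ξ i z) ∧
      ∀ i, (g.it n).2.eval (ξ i z) ≠ 0 ∧ g.der n (ξ i z) ≠ 0 ∧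
        HasDerivAt (ξ i) (g.der n (ξ i z))⁻¹ z

theorem loc1 {m d : ℕ} (g : RatMap d) (n : ℕ) (E : Finset ℂ) (hE : BrE g n E)
    (B : Set (Fin m → ℂ)) (hB : IsOpen B) (f : (Fin m → ℂ) → ℂ) (hf : DifferentiableOn ℂ f B)
    (t₀ : Fin m → ℂ) (ht₀ : t₀ ∈ B) (h : (∃ v, ∀ t ∈ B, f t = v) ∨ f t₀ ∉ E) :
    ∃ (W : Set (Fin m → ℂ)) (N : ℕ) (η : Fin N → (Fin m → ℂ) → ℂ), IsOpen W ∧ t₀ ∈ W ∧
      W ⊆ B ∧ ∀ t ∈ W, (Function.Injective fun i => η i t) ∧
        (∀ y, y ∈ (g.fib n (f t)).roots ↔ ∃ i, η i t = y) ∧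
        ∀ i, HasFDerivAt (η i) ((g.der n (η i t))⁻¹ • fderiv ℂ f t) t := by
  rcases h with ⟨v, hv⟩ | h
  · refine ⟨B, _, fun i _ => ((g.fib n v).roots.toFinset.equivFin.symm i).1, hB, ht₀, le_rfl, ?_⟩
    intro t ht
    refine ⟨?_, ?_, ?_⟩
    · intro i j hij
      exact (g.fib n v).roots.toFinset.equivFin.symm.injective (Subtype.ext hij)
    · intro y
      rw [hv t ht, ← Multiset.mem_toFinset]
      constructor
      · intro hy
        refine ⟨(g.fib n v).roots.toFinset.equivFin ⟨y, hy⟩, ?_⟩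
        simp
      · rintro ⟨i, rfl⟩
        exact ((g.fib n v).roots.toFinset.equivFin.symm i).2
    · intro i
      have h2 : fderiv ℂ f t = 0 := by
        have h3 : f =ᶠ[𝓝 t] fun _ => v := by
          filter_upwards [hB.mem_nhds ht] with s hs
          exact hv s hs
        rw [h3.fderiv_eq]
        exact (hasFDerivAt_const v t).fderiv
      rw [h2]
      refine (hasFDerivAt_const _ t).congr_fderiv (ContinuousLinearMap.ext fun w => ?_)
      show (0 : ℂ) = (g.der n _)⁻¹ • (0 : ℂ)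
      rw [smul_zero]
  · obtain ⟨ρ, hρ, ξ, -, hξ⟩ := hE (f t₀) h
    refine ⟨B ∩ f ⁻¹' Metric.ball (f t₀) ρ, d ^ n, fun i t => ξ i (f t),
      hf.continuousOn.isOpen_inter_preimage hB Metric.isOpen_ball,
      ⟨ht₀, Metric.mem_ball_self hρ⟩, inter_subset_left, ?_⟩
    rintro t ⟨htB, ht⟩
    obtain ⟨-, hinj, hroots, hder⟩ := hξ (f t) ht
    refine ⟨hinj, ?_, ?_⟩
    · intro y
      rw [hroots, Multiset.mem_map]
      simp
    · intro i
      have h3 : HasFDerivAt f (fderiv ℂ f t) t :=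
        ((hf t htB).differentiableAt (hB.mem_nhds htB)).hasFDerivAt
      exact (hder i).2.2.comp_hasFDerivAt t h3

theorem loc2 {k m d : ℕ} (g : RatMap d) (n : ℕ) (E : Finset ℂ) (hE : BrE g n E)
    (B : Set (Fin m → ℂ)) (hB : IsOpen B) (ψ : (Fin m → ℂ) → (Fin k → ℂ))
    (hψ : DifferentiableOn ℂ ψ B) (t₀ : Fin m → ℂ) (ht₀ : t₀ ∈ B)
    (h : ∀ l, (∃ v, ∀ t ∈ B, ψ t l = v) ∨ ψ t₀ l ∉ E) :
    ∃ (W : Set (Fin m → ℂ)) (P : Type) (x : P → (Fin m → ℂ) → (Fin k → ℂ)), Finite P ∧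
      IsOpen W ∧ t₀ ∈ W ∧ W ⊆ B ∧ ∀ t ∈ W, (Function.Injective fun β => x β t) ∧
        (∀ y, y ∈ fibre g n (ψ t) ↔ ∃ β, x β t = y) ∧
        ∀ β, HasFDerivAt (x β) (ContinuousLinearMap.pi fun l =>
          (g.der n (x β t l))⁻¹ • fderiv ℂ (fun t => ψ t l) t) t := by
  have hψl : ∀ l, DifferentiableOn ℂ (fun t => ψ t l) B := differentiableOn_pi.1 hψ
  choose W N η hWo hWt hWB hW using fun l =>
    loc1 g n E hE B hB (fun t => ψ t l) (hψl l) t₀ ht₀ (h l)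
  refine ⟨B ∩ ⋂ l, W l, ∀ l, Fin (N l), fun β t l => η l (β l) t, inferInstance,
    hB.inter (isOpen_iInter_of_finite hWo), ⟨ht₀, mem_iInter.2 hWt⟩, inter_subset_left, ?_⟩
  rintro t ⟨htB, ht⟩
  rw [mem_iInter] at ht
  refine ⟨?_, ?_, ?_⟩
  · intro β γ hβγ
    funext l
    exact (hW l t (ht l)).1 (congrFun hβγ l)
  · intro y
    unfold fibre
    rw [Fintype.mem_piFinset]
    simp only [Multiset.mem_toFinset]
    constructor
    · intro hy
      choose β hβ using fun l => ((hW l t (ht l)).2.1 (y l)).1 (hy l)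
      exact ⟨β, funext hβ⟩
    · rintro ⟨β, rfl⟩ l
      exact ((hW l t (ht l)).2.1 _).2 ⟨β l, rfl⟩
  · intro β
    rw [hasFDerivAt_pi']
    intro l
    exact (hW l t (ht l)).2.2 (β l)

theorem det_formula (h3 : T_CB) {k m d : ℕ} (g : RatMap d) (n : ℕ)
    (Φ : (Fin k → ℂ) → (Fin m → ℂ)) (hΦ : Differentiable ℂ Φ)
    (ψ : (Fin m → ℂ) → (Fin k → ℂ)) (t : Fin m → ℂ) (hψ : DifferentiableAt ℂ ψ t)
    (x : (Fin m → ℂ) → (Fin k → ℂ))
    (hx : HasFDerivAt x (ContinuousLinearMap.pi fun l =>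
          (g.der n (x t l))⁻¹ • fderiv ℂ (fun t => ψ t l) t) t) :
    (jac (fun t => Φ (x t)) t).det = bdet g n Φ ψ t (x t) := by
  have hψl : ∀ (l : Fin k) (v : Fin m → ℂ),
      fderiv ℂ (fun t => ψ t l) t v = fderiv ℂ ψ t v l := by
    intro l v
    have := (hasFDerivAt_pi'.1 hψ.hasFDerivAt) l
    rw [this.fderiv]
    rfl
  have hcomp : HasFDerivAt (fun t => Φ (x t)) ((fderiv ℂ Φ (x t)).comp
      (ContinuousLinearMap.pi fun l =>
          (g.der n (x t l))⁻¹ • fderiv ℂ (fun t => ψ t l) t)) t :=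
    (hΦ (x t)).hasFDerivAt.comp t hx
  set A : Matrix (Fin m) (Fin k) ℂ := Matrix.of fun i l =>
    fderiv ℂ Φ (x t) (Pi.single l 1) i with hA
  set Bm : Matrix (Fin k) (Fin m) ℂ := Matrix.of fun l j =>
    (g.der n (x t l))⁻¹ * fderiv ℂ ψ t (Pi.single j 1) l with hBm
  have hjac : jac (fun t => Φ (x t)) t = A * Bm := by
    ext i j
    rw [Matrix.mul_apply]
    show fderiv ℂ (fun t => Φ (x t)) t (ek j) i = _
    rw [hcomp.fderiv, ContinuousLinearMap.comp_apply]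
    set v : Fin k → ℂ := (ContinuousLinearMap.pi fun l =>
      (g.der n (x t l))⁻¹ • fderiv ℂ (fun t => ψ t l) t) (ek j) with hv
    have hvl : ∀ l, v l = Bm l j := by
      intro l
      rw [hv, ContinuousLinearMap.pi_apply]
      show (g.der n (x t l))⁻¹ • (fderiv ℂ (fun t => ψ t l) t) (ek j) = _
      rw [hψl, smul_eq_mul]
      rfl
    have hvs : v = ∑ l, v l • (Pi.single l 1 : Fin k → ℂ) := by
      ext l
      simp [Pi.single_apply]
    conv_lhs => rw [hvs]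
    rw [map_sum, Finset.sum_apply]
    apply Finset.sum_congr rfl
    intro l _
    rw [map_smul, Pi.smul_apply, smul_eq_mul, hvl, mul_comm]
    rfl
  rw [hjac, h3, bdet]
  apply Finset.sum_congr rfl
  intro I _
  have h4 : (Matrix.of fun i j => Bm (I.1.orderEmbOfFin I.2 i) j).det =
      rmin ψ I t / ∏ i ∈ I.1, g.der n (x t i) := by
    have h5 : (Matrix.of fun i j => Bm (I.1.orderEmbOfFin I.2 i) j) =
        Matrix.of fun i j => (g.der n (x t (I.1.orderEmbOfFin I.2 i)))⁻¹ *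
          (Matrix.of fun i j : Fin m =>
            fderiv ℂ ψ t (Pi.single j 1) (I.1.orderEmbOfFin I.2 i)) i j := rfl
    rw [h5, Matrix.det_mul_column, Finset.prod_inv_distrib, rmin, div_eq_inv_mul]
    congr 2
    have h6 : (Finset.univ : Finset (Fin m)).map (I.1.orderEmbOfFin I.2).toEmbedding = I.1 :=
      Finset.map_orderEmbOfFin_univ I.1 I.2
    conv_rhs => rw [← h6]
    rw [Finset.prod_map]
    rfl
  rw [h4]
  rfl

end Pool.Agent.H14.UDA
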