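import Pool.Agent.H14.UDA.AF1

/-!
Module AF, part 2: a countable family of branches.
-/

set_option autoImplicit false

open Polynomial MeasureTheory Filter Topology Set
open scoped ENNReal

namespace Pool.Agent.H14.UDA

open Pool.Agent.H83.UE Pool.Agent.H95.VG

theorem branches (h3 : T_CB) {k m d : ℕ} (g : RatMap d) (n : ℕ) (E : Finset ℂ)
    (hE : BrE g n E) (B : Set (Fin m → ℂ)) (hB : IsOpen B)
    (ψ : (Fin m → ℂ) → (Fin k → ℂ)) (hψ : DifferentiableOn ℂ ψ B)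
    (Φ : (Fin k → ℂ) → (Fin m → ℂ)) (hΦ : Differentiable ℂ Φ)
    (S : Set (Fin m → ℂ)) (hS : MeasurableSet S) (hSB : S ⊆ B)
    (hSE : ∀ t ∈ S, ∀ l, (∃ v, ∀ t ∈ B, ψ t l = v) ∨ ψ t l ∉ E) :
    ∃ (J : Type) (W T : J → Set (Fin m → ℂ)) (x : J → (Fin m → ℂ) → (Fin k → ℂ)),
      Countable J ∧ (∀ j, IsOpen (W j)) ∧ (∀ j, MeasurableSet (T j)) ∧ (∀ j, T j ⊆ W j) ∧
      (∀ j, T j ⊆ S) ∧ (∀ j, DifferentiableOn ℂ (x j) (W j)) ∧
      (∀ j, ∀ t ∈ W j, (jac (fun t => Φ (x j t)) t).det = bdet g n Φ ψ t (x j t)) ∧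
      (∀ t ∈ S, ∀ y, y ∈ fibre g n (ψ t) ↔ ∃ j, t ∈ T j ∧ x j t = y) ∧
      ∀ i j t, t ∈ T i → t ∈ T j → x i t = x j t → i = j := by
  have hloc : ∀ t₀ : Fin m → ℂ,
      ∃ (W : Set (Fin m → ℂ)) (P : Type) (x : P → (Fin m → ℂ) → (Fin k → ℂ)), Finite P ∧
      IsOpen W ∧ (t₀ ∈ B → (∀ l, (∃ v, ∀ t ∈ B, ψ t l = v) ∨ ψ t₀ l ∉ E) → t₀ ∈ W) ∧
      W ⊆ B ∧ ∀ t ∈ W, (Function.Injective fun β => x β t) ∧
        (∀ y, y ∈ fibre g n (ψ t) ↔ ∃ β, x β t = y) ∧
        ∀ β, HasFDerivAt (x β) (ContinuousLinearMap.pi fun l =>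
          (g.der n (x β t l))⁻¹ • fderiv ℂ (fun t => ψ t l) t) t := by
    intro t₀
    by_cases h : t₀ ∈ B ∧ ∀ l, (∃ v, ∀ t ∈ B, ψ t l = v) ∨ ψ t₀ l ∉ E
    · obtain ⟨W, P, x, hP, hWo, htW, hWB, hW⟩ := loc2 g n E hE B hB ψ hψ t₀ h.1 h.2
      exact ⟨W, P, x, hP, hWo, fun _ _ => htW, hWB, hW⟩
    · refine ⟨∅, Empty, fun e => e.elim, inferInstance, isOpen_empty, ?_, empty_subset _, ?_⟩
      · intro h4 h5
        exact (h ⟨h4, h5⟩).elim
      · intro t ht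
        exact ht.elim
  choose W P x hP hWo hWt hWB hW using hloc
  obtain ⟨T0, hT0c, hT0⟩ := TopologicalSpace.isOpen_iUnion_countable W hWo
  obtain ⟨f, hf⟩ := countable_iff_exists_subset_range.1 hT0c
  have hDm : ∀ i, MeasurableSet (disjointed (fun i => W (f i)) i) := fun i =>
    MeasurableSet.disjointed (fun i => (hWo (f i)).measurableSet) i
  have hDW : ∀ i, disjointed (fun i => W (f i)) i ⊆ W (f i) := fun i =>
    disjointed_subset _ i
  have hDd : ∀ i j t, t ∈ disjointed (fun i => W (f i)) i →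
      t ∈ disjointed (fun i => W (f i)) j → i = j := by
    intro i j t hi hj
    by_contra hij
    exact (disjoint_left.1 (disjoint_disjointed (fun i => W (f i)) hij)) hi hj
  have hDc : ∀ t ∈ S, ∃ i, t ∈ disjointed (fun i => W (f i)) i := by
    intro t ht
    have h4 : t ∈ ⋃ i, W i := mem_iUnion.2 ⟨t, hWt t (hSB ht) (hSE t ht)⟩
    rw [← hT0, mem_iUnion₂] at h4
    obtain ⟨s, hs, hts⟩ := h4
    obtain ⟨i, rfl⟩ := hf hs
    have h5 : t ∈ ⋃ i, W (f i) := mem_iUnion.2 ⟨i, hts⟩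
    rw [← iUnion_disjointed, mem_iUnion] at h5
    exact h5
  have hJ : ∀ c, Countable (P (f c)) := fun c => by
    have := hP (f c)
    exact Finite.to_countable
  refine ⟨Σ c : ℕ, P (f c), fun j => W (f j.1),
    fun j => S ∩ disjointed (fun i => W (f i)) j.1, fun j => x (f j.1) j.2, inferInstance,
    fun j => hWo _, fun j => hS.inter (hDm _), fun j => inter_subset_right.trans (hDW _),
    fun j => inter_subset_left, ?_, ?_, ?_, ?_⟩
  · intro j t ht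
    exact ((hW (f j.1) t ht).2.2 j.2).differentiableAt.differentiableWithinAt
  · intro j t ht
    have hψt : DifferentiableAt ℂ ψ t :=
      (hψ t (hWB _ ht)).differentiableAt (hB.mem_nhds (hWB _ ht))
    exact det_formula h3 g n Φ hΦ ψ t hψt (x (f j.1) j.2) ((hW (f j.1) t ht).2.2 j.2)
  · intro t ht y
    constructor
    · intro hy
      obtain ⟨i, hi⟩ := hDc t ht
      obtain ⟨β, hβ⟩ := ((hW (f i) t (hDW i hi)).2.1 y).1 hy
      exact ⟨⟨i, β⟩, ⟨ht, hi⟩, hβ⟩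
    · rintro ⟨j, hj, hjy⟩
      exact ((hW (f j.1) t (hDW j.1 hj.2)).2.1 y).2 ⟨j.2, hjy⟩
  · rintro ⟨a, β⟩ ⟨b, γ⟩ t ha hb hab
    obtain rfl : a = b := hDd a b t ha.2 hb.2
    have h4 : β = γ := (hW (f a) t (hDW a ha.2)).1 hab
    rw [h4]

/-- the sum over the fibre in terms of the branches -/
theorem sum_branches {J X : Type} (s : Finset X) (p : J → Prop) [DecidablePred p] (x : J → X)
    (h : ∀ y, y ∈ s ↔ ∃ j, p j ∧ x j = y) (hu : ∀ i j, p i → p j → x i = x j → i = j)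
    (H : X → ℝ≥0∞) : ∑ y ∈ s, H y = ∑' j, if p j then H (x j) else 0 := by
  classical
  have h1 : ∀ j, (if p j then H (x j) else 0) =
      ∑ y ∈ s, if p j ∧ x j = y then H y else 0 := by
    intro j
    by_cases hj : p j
    · rw [if_pos hj, Finset.sum_eq_single (x j)]
      · rw [if_pos ⟨hj, rfl⟩]
      · intro y _ hy
        rw [if_neg]
        exact fun h2 => hy h2.2.symm
      · intro h2
        exact absurd ((h (x j)).2 ⟨j, hj, rfl⟩) h2
    · rw [if_neg hj]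
      symm
      apply Finset.sum_eq_zero
      intro y _
      rw [if_neg]
      exact fun h2 => hj h2.1
  simp only [h1]
  rw [Summable.tsum_finsetSum fun _ _ => ENNReal.summable]
  apply Finset.sum_congr rfl
  intro y hy
  obtain ⟨j, hj, hjy⟩ := (h y).1 hy
  rw [tsum_eq_single j]
  · rw [if_pos ⟨hj, hjy⟩]
  · intro i hi
    rw [if_neg]
    rintro ⟨h2, h4⟩
    exact hi (hu i j h2 hj (h4.trans hjy.symm))

end Pool.Agent.H14.UDA
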