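import Pool.Agent.H83.UE.Targets2

/-!
Module CB: the Cauchy-Binet formula, from the exterior powers.
-/

set_option autoImplicit false

open Module

namespace Pool.Agent.H14.UDA

open Pool.Agent.H83.UE

/-- index conversion -/
def eIdx (k m : ℕ) : Set.powersetCard (Fin k) m ≃ Idx k m where
  toFun s := ⟨s.1, s.2⟩
  invFun s := ⟨s.1, s.2⟩
  left_inv _ := rfl
  right_inv _ := rfl

/-- the basis of the exterior power attached to the standard basis -/
noncomputable def bX (k m : ℕ) : Basis (Idx k m) ℂ (⋀[ℂ]^m (Fin k → ℂ)) :=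
  ((Pi.basisFun ℂ (Fin k)).exteriorPower m).reindex (eIdx k m)

theorem bX_repr (k m : ℕ) (v : Fin m → Fin k → ℂ) (I : Idx k m) :
    (bX k m).repr (exteriorPower.ιMulti ℂ m v) I =
      (Matrix.of fun i j => v i (I.1.orderEmbOfFin I.2 j)).det := by
  rw [bX, Basis.repr_reindex_apply, exteriorPower.basis_repr_apply,
    exteriorPower.ιMultiDual_apply_ιMulti]
  rfl

theorem bX_apply (k m : ℕ) (I : Idx k m) :
    bX k m I = exteriorPower.ιMulti ℂ m
      (fun i => (Pi.basisFun ℂ (Fin k)) (I.1.orderEmbOfFin I.2 i)) := by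
  rw [bX, Basis.reindex_apply, exteriorPower.basis_apply]
  rfl

theorem pf_CB : T_CB := by
  intro k m A B
  set D : ⋀[ℂ]^m (Fin m → ℂ) →ₗ[ℂ] ℂ :=
    exteriorPower.alternatingMapLinearEquiv (Matrix.detRowAlternating (n := Fin m) (R := ℂ))
    with hD
  have hDa : ∀ v : Fin m → Fin m → ℂ, D (exteriorPower.ιMulti ℂ m v) = Matrix.det v := by
    intro v
    rw [hD, exteriorPower.alternatingMapLinearEquiv_apply_ιMulti]
    rfl
  have h1 : exteriorPower.ιMulti ℂ m (fun i => (A * B) i) =
      exteriorPower.map m (Matrix.vecMulLinear B) (exteriorPower.ιMulti ℂ m (fun i => A i)) := by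
    rw [exteriorPower.map_apply_ιMulti]
    congr 1
  have h2 : (A * B).det = D (exteriorPower.ιMulti ℂ m (fun i => (A * B) i)) := (hDa _).symm
  rw [h2, h1, ← (bX k m).sum_repr (exteriorPower.ιMulti ℂ m (fun i => A i)), map_sum, map_sum]
  apply Finset.sum_congr rfl
  intro I _
  rw [map_smul, map_smul, smul_eq_mul, bX_repr, bX_apply, exteriorPower.map_apply_ιMulti, hDa]
  congr 2
  ext i j
  simp

end Pool.Agent.H14.UDA
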