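import Pool.Agent.H83.UE.Targets

/-!
Module MEA: measurability of sums over fibres.
-/

set_option autoImplicit false

open Polynomial MeasureTheory Filter Topology Set

namespace Pool.Agent.H14.UDA

open Pool.Agent.H83.UE

/-- local injectivity of `P / Q` -/
theorem loc_inj (P Q : ℂ[X]) (x : ℂ) : ∃ U : Set ℂ, IsOpen U ∧ (∀ y ∈ U, Q.eval y ≠ 0) ∧
    InjOn (fun y => P.eval y / Q.eval y) U ∧
    (Q.eval x ≠ 0 → deriv (fun y => P.eval y / Q.eval y) x ≠ 0 → x ∈ U) := by
  by_cases hx : Q.eval x ≠ 0 ∧ deriv (fun y => P.eval y / Q.eval y) x ≠ 0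
  · obtain ⟨hQ, hd⟩ := hx
    have h1 := (P.hasStrictDerivAt x).fun_div (Q.hasStrictDerivAt x) hQ
    rw [h1.hasDerivAt.deriv] at hd
    have h2 := h1.hasStrictFDerivAt_equiv hd
    have ho : IsOpen {y : ℂ | Q.eval y ≠ 0} := isOpen_ne_fun Q.continuous continuous_const
    refine ⟨(h2.toOpenPartialHomeomorph _).source ∩ {y : ℂ | Q.eval y ≠ 0},
      (h2.toOpenPartialHomeomorph _).open_source.inter ho, fun y hy => hy.2, ?_, ?_⟩
    · have h3 := (h2.toOpenPartialHomeomorph _).injOn
      rw [h2.toOpenPartialHomeomorph_coe] at h3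
      exact h3.mono inter_subset_left
    · intro _ _
      exact ⟨h2.mem_toOpenPartialHomeomorph_source, hQ⟩
  · refine ⟨∅, isOpen_empty, fun y hy => hy.elim, injOn_empty _, ?_⟩
    intro h1 h2
    exact (hx ⟨h1, h2⟩).elim

/-- a countable family of disjoint Borel sets on which `P / Q` is injective -/
theorem pieces (P Q : ℂ[X]) : ∃ B : ℕ → Set ℂ, (∀ i, MeasurableSet (B i)) ∧
    (∀ i, ∀ y ∈ B i, Q.eval y ≠ 0) ∧ (∀ i, InjOn (fun y => P.eval y / Q.eval y) (B i)) ∧
    (∀ i j x, x ∈ B i → x ∈ B j → i = j) ∧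
    ∀ x, Q.eval x ≠ 0 → deriv (fun y => P.eval y / Q.eval y) x ≠ 0 → ∃ i, x ∈ B i := by
  choose U hUo hUQ hUi hUx using loc_inj P Q
  obtain ⟨T, hTc, hT⟩ := TopologicalSpace.isOpen_iUnion_countable U hUo
  obtain ⟨f, hf⟩ := countable_iff_exists_subset_range.1 hTc
  refine ⟨disjointed fun i => U (f i), fun i => MeasurableSet.disjointed
    (fun i => (hUo (f i)).measurableSet) i, ?_, ?_, ?_, ?_⟩
  · intro i y hy
    exact hUQ (f i) y (disjointed_subset _ i hy)
  · intro i
    exact (hUi (f i)).mono (disjointed_subset _ i)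
  · intro i j x hi hj
    by_contra hij
    exact (disjoint_left.1 (disjoint_disjointed (fun i => U (f i)) hij)) hi hj
  · intro x hQ hd
    have h1 : x ∈ ⋃ i, U i := mem_iUnion.2 ⟨x, hUx x hQ hd⟩
    rw [← hT, mem_iUnion₂] at h1
    obtain ⟨t, ht, hxt⟩ := h1
    obtain ⟨i, rfl⟩ := hf ht
    have h2 : x ∈ ⋃ i, U (f i) := mem_iUnion.2 ⟨i, hxt⟩
    rw [← iUnion_disjointed, mem_iUnion] at h2
    exact h2

open scoped Classical in
/-- measurability of the sum over the fibre with values in a general space -/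
theorem meas_fib {M : Type} [AddCommMonoid M] [TopologicalSpace M] [ContinuousAdd M]
    [TopologicalSpace.PseudoMetrizableSpace M] [MeasurableSpace M] [BorelSpace M]
    [MeasurableAdd₂ M] (P Q : ℂ[X]) (E : Finset ℂ)
    (h0 : ∀ z, P - C z * Q ≠ 0)
    (hE : ∀ z, z ∉ E → (P - C z * Q).roots.Nodup ∧
      ∀ x ∈ (P - C z * Q).roots, Q.eval x ≠ 0 ∧ deriv (fun y => P.eval y / Q.eval y) x ≠ 0)
    (H : ℂ → M) (hH : Measurable H) : Measurable fun z => ((P - C z * Q).roots.map H).sum := by
  obtain ⟨B, hBm, hBQ, hBi, hBd, hBc⟩ := pieces P Q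
  set h : ℂ → ℂ := fun y => P.eval y / Q.eval y with hh
  have hcont : ∀ i, ContinuousOn h (B i) := by
    intro i
    exact P.continuous.continuousOn.div Q.continuous.continuousOn (hBQ i)
  set F : ℕ → ℂ → M := fun i => Function.extend ((B i).domRestrict h)
    (fun x => H x.1) (fun _ => 0) with hF
  have hFm : ∀ i, Measurable (F i) := by
    intro i
    have h1 : MeasurableEmbedding ((B i).domRestrict h) :=
      (hcont i).measurableEmbedding (hBm i) (hBi i)
    exact h1.measurable_extend (hH.comp measurable_subtype_coe) measurable_const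
  have hroot : ∀ z x, Q.eval x ≠ 0 → (x ∈ (P - C z * Q).roots.toFinset ↔ h x = z) := by
    intro z x hQ
    rw [Multiset.mem_toFinset, mem_roots (h0 z), IsRoot.def, eval_sub, eval_mul, eval_C,
      sub_eq_zero, hh]
    constructor
    · intro h2
      simp only
      rw [h2, mul_div_assoc, div_self hQ, mul_one]
    · intro h2
      simp only at h2
      rw [← h2, div_mul_cancel₀ _ hQ]
  have hFs : ∀ i z, F i z = ∑ x ∈ (P - C z * Q).roots.toFinset, if x ∈ B i then H x else 0 := by
    intro i z
    by_cases hz : ∃ a : B i, (B i).domRestrict h a = z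
    · obtain ⟨a, ha⟩ := hz
      have hinj : Function.Injective ((B i).domRestrict h) := injOn_iff_injective.1 (hBi i)
      have h1 : F i z = H a.1 := by
        rw [← ha]
        exact hinj.extend_apply _ _ a
      have ha' : h a.1 = z := ha
      rw [h1, Finset.sum_eq_single a.1]
      · rw [if_pos a.2]
      · intro b hb hba
        rw [if_neg]
        intro hbB
        apply hba
        have h3 := (hroot z b (hBQ i b hbB)).1 hb
        exact hBi i hbB a.2 (h3.trans ha'.symm)
      · intro hna
        exact absurd ((hroot z a.1 (hBQ i a.1 a.2)).2 ha') hna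
    · have h1 : F i z = 0 := Function.extend_apply' _ _ _ hz
      rw [h1]
      symm
      apply Finset.sum_eq_zero
      intro x hx
      rw [if_neg]
      intro hxB
      exact hz ⟨⟨x, hxB⟩, (hroot z x (hBQ i x hxB)).1 hx⟩
  have hlim : ∀ z, z ∉ E → Tendsto (fun n => ∑ i ∈ Finset.range n, F i z) atTop
      (𝓝 ((P - C z * Q).roots.map H).sum) := by
    intro z hz
    obtain ⟨hnd, hr⟩ := hE z hz
    have h1 : ((P - C z * Q).roots.map H).sum =
        ∑ x ∈ (P - C z * Q).roots.toFinset, H x := by
      rw [Finset.sum_eq_multiset_sum, Multiset.toFinset_val, Multiset.dedup_eq_self.2 hnd]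
    rw [h1]
    apply HasSum.tendsto_sum_nat
    simp only [hFs]
    apply hasSum_sum
    intro x hx
    obtain ⟨hQ, hd⟩ := hr x (Multiset.mem_toFinset.1 hx)
    obtain ⟨i, hi⟩ := hBc x hQ hd
    have h2 := hasSum_single (f := fun j => if x ∈ B j then H x else (0 : M)) i (by
      intro j hj
      rw [if_neg]
      intro hxj
      exact hj (hBd j i x hxj hi))
    simp only [if_pos hi] at h2
    exact h2
  set G : ℂ → M := fun z => if z ∈ E then 0 else ((P - C z * Q).roots.map H).sum with hG
  have hGm : Measurable G := by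
    refine measurable_of_tendsto_metrizable (f := fun n z =>
      if z ∈ E then 0 else ∑ i ∈ Finset.range n, F i z) ?_ ?_
    · intro n
      exact Measurable.ite E.measurableSet measurable_const
        (Finset.measurable_fun_sum _ fun i _ => hFm i)
    · rw [tendsto_pi_nhds]
      intro z
      by_cases hz : z ∈ E
      · simp only [hG, if_pos hz]
        exact tendsto_const_nhds
      · simp only [hG, if_neg hz]
        exact hlim z hz
  refine hGm.measurable_of_countable_ne ?_
  refine E.finite_toSet.countable.mono ?_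
  intro z hz
  by_contra hzE
  apply hz
  have hzE' : z ∉ E := fun h => hzE (Finset.mem_coe.2 h)
  simp only [hG]
  rw [if_neg hzE']

theorem pf_MEA (h1 : T_SIM) : T_MEA := by
  intro P Q hPQ hdeg
  have hD : 1 ≤ max P.natDegree Q.natDegree := by
    rcases hdeg with h | h
    · exact le_max_of_le_left h
    · exact le_max_of_le_right h
  obtain ⟨E, hE⟩ := h1 (max P.natDegree Q.natDegree) P Q hD hPQ (le_max_left _ _)
    (le_max_right _ _) (by
      rcases max_choice P.natDegree Q.natDegree with h | h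
      · exact Or.inl h.symm
      · exact Or.inr h.symm)
  have h0 : ∀ z, P - C z * Q ≠ 0 := by
    intro z hz
    have hP : P = C z * Q := sub_eq_zero.1 hz
    have hu : IsUnit Q := by
      rw [hP] at hPQ
      exact hPQ.isUnit_of_dvd' (Dvd.intro_left _ rfl) dvd_rfl
    have hQ0 : Q.natDegree = 0 := natDegree_eq_zero_of_isUnit hu
    have hP0 : P.natDegree = 0 := by
      rw [hP]
      have := natDegree_C_mul_le z Q
      omega
    omega
  have hE' : ∀ z, z ∉ E → (P - C z * Q).roots.Nodup ∧
      ∀ x ∈ (P - C z * Q).roots, Q.eval x ≠ 0 ∧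
        deriv (fun y => P.eval y / Q.eval y) x ≠ 0 := fun z hz =>
    ⟨(hE z hz).1, (hE z hz).2.2⟩
  exact ⟨fun H hH => meas_fib P Q E h0 hE' H hH, fun H hH => meas_fib P Q E h0 hE' H hH⟩

end Pool.Agent.H14.UDA
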