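import Pool.Agent.H83.UE.Targets

/-!
Module MEC: the direct image of a continuous function is measurable.
-/

set_option autoImplicit false

open Polynomial MeasureTheory Filter Topology Set
open scoped ComplexConjugate

namespace Pool.Agent.H14.UDA

open Pool.Agent.H83.UE

theorem pushCoeff_sum {k m d : ℕ} (g : Fin k → RatMap d) (n : ℕ) (I J : Idx k m) (N : ℕ)
    (c : Fin N → ℂ) (φ : Fin N → (Fin k → ℂ) → ℂ) (z : Fin k → ℂ) :
    pushCoeff g n I J (fun x => ∑ a, c a * φ a x) z =
      ∑ a, c a * pushCoeff g n I J (φ a) z := by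
  unfold pushCoeff fibSum
  simp only [Finset.sum_div, Finset.mul_sum]
  rw [Finset.sum_comm]
  apply Finset.sum_congr rfl
  intro a _
  apply Finset.sum_congr rfl
  intro x _
  ring

theorem pushCoeff_tendsto {k m d : ℕ} (g : Fin k → RatMap d) (n : ℕ) (I J : Idx k m)
    (φ : ℕ → (Fin k → ℂ) → ℂ) (χ : (Fin k → ℂ) → ℂ)
    (h : ∀ x, Tendsto (fun N => φ N x) atTop (𝓝 (χ x))) (z : Fin k → ℂ) :
    Tendsto (fun N => pushCoeff g n I J (φ N) z) atTop (𝓝 (pushCoeff g n I J χ z)) := by
  unfold pushCoeff fibSum
  apply tendsto_finsetSum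
  intro x _
  exact ((h x).div_const _).const_mul _

theorem meas_fac (h1 : T_IT) (h2 : T_MEA) {d : ℕ} (hd : 1 ≤ d) (g : RatMap d) (n : ℕ)
    (a b : Prop) [Decidable a] [Decidable b] (u : ℂ → ℂ) (hu : Measurable u) :
    Measurable (fac g n a b u) := by
  obtain ⟨-, -, h3, h4, -⟩ := h1 d hd g n
  have hpos : 0 < d ^ n := by positivity
  have h5 : 0 < (g.it n).1.natDegree ∨ 0 < (g.it n).2.natDegree := by
    rcases h3 with h | h
    · left
      rw [h]
      exact hpos
    · right
      rw [h]
      exact hpos
  have hder : Measurable (g.der n) := measurable_deriv _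
  have hda : Measurable fun x => (if a then g.der n x else 1) := by
    by_cases ha : a
    · simpa only [if_pos ha] using hder
    · simpa only [if_neg ha] using measurable_const
  have hdb : Measurable fun x => (if b then g.der n x else 1) := by
    by_cases hb : b
    · simpa only [if_pos hb] using hder
    · simpa only [if_neg hb] using measurable_const
  have hH : Measurable fun x => u x / ((if a then g.der n x else 1) *
      conj (if b then g.der n x else 1)) :=
    hu.div (hda.mul (continuous_star.measurable.comp hdb))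
  exact (h2 (g.it n).1 (g.it n).2 h4 h5).2 _ hH

theorem pf_MEC (h1 : T_IT) (h2 : T_MEA) (h3 : T_FP) (h4 : T_SW) : T_MEC := by
  intro k m d hd g n I J χ hχ hχc
  obtain ⟨R, -, hR⟩ := h4 k χ hχ hχc
  have hε : ∀ j : ℕ, (0 : ℝ) < 1 / ((j : ℝ) + 1) := fun j => by positivity
  choose N c u hu1 hu2 hu3 using fun j : ℕ => hR (1 / ((j : ℝ) + 1)) (hε j)
  refine measurable_of_tendsto_metrizable
    (f := fun (j : ℕ) z => pushCoeff g n I J (fun x => ∑ a, c j a * ∏ l, u j a l (x l)) z)
    ?_ ?_
  · intro j
    have h5 : (fun z => pushCoeff g n I J (fun x => ∑ a, c j a * ∏ l, u j a l (x l)) z) =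
        fun z => ∑ a, c j a * ∏ l, fac (g l) n (l ∈ I.1) (l ∈ J.1) (u j a l) (z l) := by
      funext z
      rw [pushCoeff_sum g n I J (N j) (c j) (fun a x => ∏ l, u j a l (x l))]
      apply Finset.sum_congr rfl
      intro a _
      rw [h3]
    rw [h5]
    apply Finset.measurable_fun_sum
    intro a _
    apply Measurable.const_mul
    apply Finset.measurable_fun_prod
    intro l _
    exact (meas_fac h1 h2 hd (g l) n _ _ (u j a l) (hu1 j a l).continuous.measurable).comp
      (measurable_pi_apply l)
  · rw [tendsto_pi_nhds]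
    intro z
    apply pushCoeff_tendsto
    intro x
    rw [tendsto_iff_norm_sub_tendsto_zero]
    refine squeeze_zero (fun j => norm_nonneg _) (fun j => ?_)
      tendsto_one_div_add_atTop_nhds_zero_nat
    rw [norm_sub_rev]
    exact hu3 j x

end Pool.Agent.H14.UDA
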